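import Pool.Agent.Q74.BH.Stm2

/-! # Project BH, JOB CorT: a positive proportion of the intervals has nearly all its trajectories at one value
(helper68, after helper190, `Pool/Agent/Q190/BH/Cor.lean`) -/

set_option autoImplicit false

namespace Pool.Agent.Q68.BH.CorT

open Finset
open Pool.Agent.Q74.KP
open Pool.Agent.Q74.SF
open Pool.Agent.Q74.BH
open Pool.Agent.Q74.AR (oc)
open Pool.Agent.Q158.Col4 (cI)

/-- the size of a class in the interval -/
def cls (F : ℤ → ℤ) (x : ℤ) (H : ℕ) (v : ℤ) : ℕ := ((range H).filter (fun h : ℕ => F (x + h) = v)).card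

theorem cls_eq (F : ℤ → ℤ) (x : ℤ) (H : ℕ) (v : ℤ) :
    ((univ : Finset (Fin H)).filter (fun h : Fin H => F (x + ((h : ℕ) : ℤ)) = v)).card = cls F x H v := by
  unfold cls
  rw [card_filter, card_filter]
  exact Fin.sum_univ_eq_sum_range (fun h : ℕ => if F (x + (h : ℤ)) = v then 1 else 0) H

theorem cls_le (F : ℤ → ℤ) (x : ℤ) (H : ℕ) (v : ℤ) : cls F x H v ≤ H := by
  unfold cls
  refine (card_filter_le _ _).trans ?_
  rw [card_range]

theorem point (K t H : ℕ) (x : ℤ) (F : ℤ → ℤ) (hF : ∀ x, F x = Pool.Agent.Q158.Pair.T^[t] x) :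
    (∑ h : Fin (K + 1) → Fin H, Ph (fun _ => (0 : Fin (K + 1))) (fun _ => 1) (V0 t x h)) ≤
      ∑ h0 : Fin H, (cls F x H (F (x + ((h0 : ℕ) : ℤ))) : ℝ) ^ K := by
  classical
  have h1 : (∑ h : Fin (K + 1) → Fin H, Ph (fun _ => (0 : Fin (K + 1))) (fun _ => 1) (V0 t x h)) ≤
      ∑ h : Fin (K + 1) → Fin H,
        (if ∀ i : Fin K, F (x + ((h i.succ : ℕ) : ℤ)) = F (x + ((h 0 : ℕ) : ℤ)) then (1 : ℝ) else 0) := by
    apply sum_le_sum
    intro h _
    unfold Ph pat
    rw [mul_one]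
    split_ifs with h2 h3 h3
    · exact le_refl _
    · exfalso
      apply h3
      intro i
      have h4 : V0 t x h i.succ = V0 t x h 0 := (h2 i.succ 0).2 rfl
      have h5 : Pool.Agent.Q158.Pair.T^[t] (x + ((h i.succ : ℕ) : ℤ)) =
          Pool.Agent.Q158.Pair.T^[t] (x + ((h 0 : ℕ) : ℤ)) := congrArg Prod.snd h4
      rw [hF, hF, h5]
    · exact zero_le_one
    · exact le_refl _
  refine h1.trans (le_of_eq ?_)
  rw [← (Fin.consEquiv (fun _ : Fin (K + 1) => Fin H)).sum_comp, Fintype.sum_prod_type]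
  apply sum_congr rfl
  intro h0 _
  have e : ∀ h' : Fin K → Fin H, (if ∀ i : Fin K, F (x + (((Fin.consEquiv (fun _ : Fin (K + 1) => Fin H)) (h0, h') i.succ : ℕ) : ℤ)) =
      F (x + (((Fin.consEquiv (fun _ : Fin (K + 1) => Fin H)) (h0, h') 0 : ℕ) : ℤ)) then (1 : ℝ) else 0) =
      if h' ∈ Fintype.piFinset (fun _ : Fin K => (univ : Finset (Fin H)).filter
        (fun h : Fin H => F (x + ((h : ℕ) : ℤ)) = F (x + ((h0 : ℕ) : ℤ)))) then 1 else 0 := by
    intro h'
    congr 1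
    apply propext
    rw [Fintype.mem_piFinset]
    constructor
    · intro h i
      rw [mem_filter]
      exact ⟨mem_univ _, h i⟩
    · intro h i
      exact (mem_filter.1 (h i)).2
  rw [sum_congr rfl (fun h' _ => e h')]
  rw [← sum_filter, sum_const, nsmul_eq_mul, mul_one, filter_univ_mem, Fintype.card_piFinset_const, cls_eq]
  push_cast
  rfl

theorem corT (hM : S_Main) (hG : S_Merge) : S_CorT := by
  classical
  intro c η hc0 hc1 hη0 hη1
  obtain ⟨hlo, hhi⟩ := Pool.Agent.Q158.Col4.log43_bounds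
  have hcI0 : 0 < cI := by
    unfold Pool.Agent.Q158.Col4.cI
    positivity
  have hcI7 : cI ≤ 7 := by
    unfold Pool.Agent.Q158.Col4.cI
    rw [div_le_iff₀ (by positivity)]
    linarith
  set κ : ℝ := (1 - c) / 42 with hκdef
  have hκ : 0 < κ := by rw [hκdef]; linarith [show (0 : ℝ) < 42 by norm_num, div_pos (show 0 < 1 - c by linarith) (show (0 : ℝ) < 42 by norm_num)]
  have hκ1 : κ ≤ 1 := by rw [hκdef]; linarith
  obtain ⟨p₁, hp₁, m₀, hm₀⟩ := hG κ (η / 2) hκ (by linarith) (by linarith)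
  -- the number of points
  obtain ⟨K, hK⟩ : ∃ K : ℕ, (1 - η) ^ K ≤ p₁ * (1 - η / 2) ^ K / 4 := by
    have hq : (1 - η) / (1 - η / 2) < 1 := by
      rw [div_lt_one (by linarith)]
      linarith
    have hq0 : 0 ≤ (1 - η) / (1 - η / 2) := div_nonneg (by linarith) (by linarith)
    obtain ⟨K, hK⟩ := exists_pow_lt_of_lt_one (show 0 < p₁ / 4 by positivity) hq
    refine ⟨K, ?_⟩
    rw [div_pow] at hK
    have h2 : 0 < (1 - η / 2) ^ K := pow_pos (by linarith) _
    rw [div_lt_iff₀ h2] at hK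
    linarith
  set w : ℝ := p₁ * (1 - η / 2) ^ K with hw
  have hwp : 0 < w := mul_pos hp₁ (pow_pos (by linarith) _)
  obtain ⟨t₀, ht₀⟩ := hM (K + 1) 0 κ (w / 4) le_rfl hκ (by positivity)
  refine ⟨w / 2, by positivity, ⌈Real.exp (4 / (1 - c) + 2 * ((t₀ : ℝ) + m₀ + 1) / (1 - c))⌉₊ + 1, ?_⟩
  intro N hN H hH hHN
  have hNr : Real.exp (4 / (1 - c) + 2 * ((t₀ : ℝ) + m₀ + 1) / (1 - c)) ≤ N := by
    refine (Nat.le_ceil _).trans ?_
    have : ((⌈Real.exp (4 / (1 - c) + 2 * ((t₀ : ℝ) + m₀ + 1) / (1 - c))⌉₊ + 1 : ℕ) : ℝ) ≤ (N : ℝ) := by exact_mod_cast hN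
    push_cast at this
    linarith
  have hNp : (0 : ℝ) < N := (Real.exp_pos _).trans_le hNr
  have hN1 : 1 ≤ N := by
    have : 0 < N := by exact_mod_cast hNp
    exact this
  have hHp : (0 : ℝ) < H := by exact_mod_cast (by omega : 0 < H)
  have hH1 : (1 : ℝ) ≤ H := by exact_mod_cast hH
  set l : ℝ := Real.log N with hl
  set s : ℝ := Real.log H with hs
  have hs0 : 0 ≤ s := Real.log_nonneg hH1
  have hsl : s ≤ c * l := by
    rw [hs, hl, ← Real.log_rpow hNp]
    exact Real.log_le_log hHp hHN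
  have hll : 4 / (1 - c) + 2 * ((t₀ : ℝ) + m₀ + 1) / (1 - c) ≤ l := by
    rw [hl, Real.le_log_iff_exp_le hNp]
    exact hNr
  have h1c : 0 < 1 - c := by linarith
  have hll' : 4 + 2 * ((t₀ : ℝ) + m₀ + 1) ≤ (1 - c) * l := by
    rw [← add_div, div_le_iff₀ h1c] at hll
    linarith
  have hl0 : 0 ≤ l := by
    have : 0 ≤ (1 - c) * l := by
      have h1 : (0 : ℝ) ≤ t₀ := Nat.cast_nonneg _
      have h2 : (0 : ℝ) ≤ m₀ := Nat.cast_nonneg _
      linarith
    exact nonneg_of_mul_nonneg_right this h1c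
  set u : ℝ := cI * s + Real.logb 2 ((N : ℝ) / H) with hu
  have hlogb : (1 - c) * l ≤ Real.logb 2 ((N : ℝ) / H) := by
    rw [Real.logb, Real.log_div hNp.ne' hHp.ne', ← hl, ← hs]
    have h2 : Real.log 2 ≤ 1 := by
      have := Real.log_two_lt_d9
      linarith
    have h2' : 0 < Real.log 2 := Real.log_pos (by norm_num)
    rw [le_div_iff₀ h2']
    have h3 : (1 - c) * l ≤ l - s := by linarith
    have h4 : 0 ≤ (1 - c) * l := by positivity
    nlinarith
  have hu0 : 0 ≤ u := by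
    rw [hu]
    have : 0 ≤ (1 - c) * l := by positivity
    have h3 : 0 ≤ cI * s := by positivity
    linarith
  set t : ℕ := ⌊u / (1 + κ)⌋₊ with ht
  have h1κ : 0 < 1 + κ := by linarith
  have ht1 : (1 + κ) * t ≤ u := by
    have := Nat.floor_le (show 0 ≤ u / (1 + κ) by positivity)
    rw [← ht, le_div_iff₀ h1κ] at this
    linarith
  have ht2 : u / (1 + κ) < t + 1 := by
    rw [ht]
    exact Nat.lt_floor_add_one _
  have hcs : cI * s ≤ 7 * l := by
    have h1 : s ≤ l := by nlinarith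
    calc cI * s ≤ 7 * s := mul_le_mul_of_nonneg_right hcI7 hs0
      _ ≤ 7 * l := by linarith
  have hcs0 : 0 ≤ cI * s := by positivity
  have ht3 : (1 + κ) * (cI * s) ≤ t := by
    rw [div_lt_iff₀ h1κ] at ht2
    have h1 : (1 + κ) * ((1 + κ) * (cI * s)) + (1 + κ) ≤ u := by
      have h2 : (2 * κ + κ ^ 2) * (cI * s) ≤ (1 - c) / 2 * l := by
        have h3 : 2 * κ + κ ^ 2 ≤ (1 - c) / 14 := by
          have : κ ^ 2 ≤ κ := by nlinarith
          have h4 : 3 * κ = (1 - c) / 14 := by rw [hκdef]; ring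
          linarith
        calc (2 * κ + κ ^ 2) * (cI * s) ≤ (1 - c) / 14 * (cI * s) := mul_le_mul_of_nonneg_right h3 hcs0
          _ ≤ (1 - c) / 14 * (7 * l) := mul_le_mul_of_nonneg_left hcs (by linarith)
          _ = (1 - c) / 2 * l := by ring
      have h5 : (1 + κ) * ((1 + κ) * (cI * s)) = cI * s + (2 * κ + κ ^ 2) * (cI * s) := by ring
      rw [h5, hu]
      have h6 : (0 : ℝ) ≤ t₀ := Nat.cast_nonneg _
      have h7 : (0 : ℝ) ≤ m₀ := Nat.cast_nonneg _
      nlinarith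
    have h2 : (1 + κ) * ((1 + κ) * (cI * s)) < (1 + κ) * t := by
      have : ((t : ℝ) + 1) * (1 + κ) = (1 + κ) * t + (1 + κ) := by ring
      linarith
    exact (lt_of_mul_lt_mul_left h2 h1κ.le).le
  have ht4 : (t₀ : ℝ) + m₀ ≤ t := by
    have h1 : (1 - c) * l / 2 ≤ u / (1 + κ) := by
      rw [div_le_div_iff₀ (by norm_num) h1κ]
      have h2 : (1 - c) * l ≤ u := by rw [hu]; linarith
      have h3 : 0 ≤ (1 - c) * l := by positivity
      nlinarith
    linarith
  have ht₀' : t₀ ≤ t := by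
    have h7 : (0 : ℝ) ≤ m₀ := Nat.cast_nonneg _
    have : (t₀ : ℝ) ≤ t := by linarith
    exact_mod_cast this
  have hm₀' : m₀ ≤ t := by
    have h7 : (0 : ℝ) ≤ t₀ := Nat.cast_nonneg _
    have : (m₀ : ℝ) ≤ t := by linarith
    exact_mod_cast this
  refine ⟨t, fun a => ?_⟩
  obtain ⟨F, hF⟩ : ∃ F : ℤ → ℤ, ∀ x, F x = Pool.Agent.Q158.Pair.T^[t] x := ⟨fun x => Pool.Agent.Q158.Pair.T^[t] x, fun _ => rfl⟩
  simp only [← hF]
  -- the main theorem
  have h1 := ht₀ t ht₀' H N hH hN1 ht3 ht1 a (fun _ => 0) (fun _ => 1) (fun z => by rw [abs_one]) (fun z w => by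
    rw [sub_self, abs_zero, zero_div, zero_mul])
  have eF : (Fm (fun _ => (0 : Fin (K + 1))) (fun _ => (1 : ℝ)) : (Fin (K + 1) → ℤ) → ℝ) =
      fun z => pat (fun _ => 0) z := by
    funext z
    unfold Fm
    rw [mul_one]
  rw [eF] at h1
  set m : ℕ := ⌊cI * s⌋₊ with hm
  have hm1 : (m : ℝ) ≤ cI * s := Nat.floor_le hcs0
  have hmt : (1 + κ) * m ≤ t := (mul_le_mul_of_nonneg_left hm1 h1κ.le).trans ht3
  have hmt' : m ≤ t := by
    have : (m : ℝ) ≤ t := by
      have h2 : (0 : ℝ) ≤ m := Nat.cast_nonneg _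
      nlinarith
    exact_mod_cast this
  have h2 := hm₀ m (t - m) (by omega) (by
    rw [Nat.cast_sub hmt']
    linarith) K
  rw [← hw] at h2
  have h3 : w * (3 / 4) ≤ Ab (K + 1) H N t a (Ph (fun _ => (0 : Fin (K + 1))) (fun _ => 1)) := by
    have := (abs_le.1 h1).1
    linarith
  -- the count
  set S := (Ico a (a + N)).filter (fun x => ∃ v : ℤ,
    (1 - η) * H ≤ (((range H).filter (fun h : ℕ => F (x + h) = v)).card : ℝ)) with hS
  have h4 : (∑ x ∈ Ico a (a + N), ∑ h : Fin (K + 1) → Fin H,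
      Ph (fun _ => (0 : Fin (K + 1))) (fun _ => 1) (V0 t x h)) ≤
      (S.card : ℝ) * (H : ℝ) ^ (K + 1) + N * ((1 - η) ^ K * (H : ℝ) ^ (K + 1)) := by
    have h5 : ∀ x ∈ Ico a (a + (N : ℤ)), (∑ h : Fin (K + 1) → Fin H,
        Ph (fun _ => (0 : Fin (K + 1))) (fun _ => 1) (V0 t x h)) ≤
        (if x ∈ S then (H : ℝ) ^ (K + 1) else 0) + (1 - η) ^ K * (H : ℝ) ^ (K + 1) := by
      intro x hx
      refine (point K t H x F hF).trans ?_
      split_ifs with hxS
      · have h6 : ∑ h0 : Fin H, (cls F x H (F (x + ((h0 : ℕ) : ℤ))) : ℝ) ^ K ≤ ∑ _h0 : Fin H, (H : ℝ) ^ K := by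
          apply sum_le_sum
          intro h0 _
          apply pow_le_pow_left₀ (Nat.cast_nonneg _)
          exact_mod_cast cls_le F x H _
        rw [sum_const, card_univ, Fintype.card_fin, nsmul_eq_mul, ← pow_succ'] at h6
        have h7 : 0 ≤ (1 - η) ^ K * (H : ℝ) ^ (K + 1) := mul_nonneg (pow_nonneg (by linarith) _) (by positivity)
        linarith
      · have h6 : ∑ h0 : Fin H, (cls F x H (F (x + ((h0 : ℕ) : ℤ))) : ℝ) ^ K ≤
            ∑ _h0 : Fin H, ((1 - η) * (H : ℝ)) ^ K := by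
          apply sum_le_sum
          intro h0 _
          apply pow_le_pow_left₀ (Nat.cast_nonneg _)
          by_contra hcon
          push Not at hcon
          apply hxS
          rw [hS, mem_filter]
          exact ⟨hx, F (x + ((h0 : ℕ) : ℤ)), hcon.le⟩
        rw [sum_const, card_univ, Fintype.card_fin, nsmul_eq_mul, mul_pow] at h6
        rw [zero_add, pow_succ']
        linarith
    refine (sum_le_sum h5).trans (le_of_eq ?_)
    rw [sum_add_distrib, sum_const, Int.card_Ico, ← sum_filter, sum_const, nsmul_eq_mul, nsmul_eq_mul]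
    have e1 : (Ico a (a + (N : ℤ))).filter (fun x => x ∈ S) = S := by
      rw [filter_mem_eq_inter, inter_eq_right]
      rw [hS]
      exact filter_subset _ _
    rw [e1]
    congr 2
    have : a + (N : ℤ) - a = N := by ring
    rw [this, Int.toNat_natCast]
  have h5 : Ab (K + 1) H N t a (Ph (fun _ => (0 : Fin (K + 1))) (fun _ => 1)) ≤
      (S.card : ℝ) / N + (1 - η) ^ K := by
    unfold Pool.Agent.Q74.BH.Ab
    rw [div_le_iff₀ (by positivity)]
    refine h4.trans (le_of_eq ?_)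
    field_simp
  have h6 : w / 2 ≤ (S.card : ℝ) / N := by linarith
  rw [le_div_iff₀ hNp] at h6
  exact h6

end Pool.Agent.Q68.BH.CorT
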